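import Mathlib
import Pool.Agent.Lib.MP_2abaf2_gt.Closing

/-!
# Every HFC space is a D-space

The definitions `basicSet`, `IsHFC` and `IsDSpace` are in `Pool/Agent/Lib/MP_2abaf2_gt/Defs.lean`.
-/

open Set Topology Pool.Agent.Lib.MP_2abaf2_gt

namespace Pool.Agent.Results.MP_2abaf2_gt.HFCareD

/-- For every linearly ordered set `Λ` (in particular for every cardinal `λ`, viewed as the
well-ordered set of the smaller ordinals), every HFC subspace `X` of `2 ^ Λ` is a D-space: every
neighbourhood assignment on `X` has a closed discrete kernel. -/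
theorem result {Λ : Type*} [LinearOrder Λ] (X : Set (Λ → Bool)) (hX : IsHFC X) : IsDSpace X :=
  hX.isDSpace

end Pool.Agent.Results.MP_2abaf2_gt.HFCareD
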